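import Mathlib

/-!
Counting for the connected version of the counterexample to first-order convergence.
A structure with five quaternary relations on `Fin n` is coded by the finite set of its
facts `(o, t)`, where `o = none` is the relation `S` and `o = some i` the relation `R_i`.
-/

set_option autoImplicit false

namespace Pool.Agent.Helper29.OWN.E6

open Finset

/-- Facts: a relation symbol and a quadruple. -/
abbrev U (n : ℕ) := Option (Fin 4) × (Fin 4 → Fin n)

/-- The validity condition. -/
def V {n : ℕ} (E : Finset (U n)) : Prop :=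
  (∀ i s t p q, ((some i, s) : U n) ∈ E → ((none, t) : U n) ∈ E → s p ≠ t q) ∧
    (∀ i j s t, ((some i, s) : U n) ∈ E → ((some j, t) : U n) ∈ E → s 1 ≠ t 0)

/-- The relation `S` is nonempty. -/
def HS {n : ℕ} (E : Finset (U n)) : Prop := ∃ t, ((none, t) : U n) ∈ E

open Classical in
/-- Number of valid sets with `S` nonempty. -/
noncomputable def NA (n : ℕ) : ℕ := (univ.filter (fun E : Finset (U n) => V E ∧ HS E)).card

open Classical in
/-- Number of valid sets with `S` empty. -/
noncomputable def NC (n : ℕ) : ℕ := (univ.filter (fun E : Finset (U n) => V E ∧ ¬ HS E)).card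

/-- The four symbols `R_i`. -/
def somes : Finset (Option (Fin 4)) := univ.map Function.Embedding.some

theorem mem_somes (o : Option (Fin 4)) : o ∈ somes ↔ ∃ i, o = some i := by
  simp [somes, eq_comm]

theorem card_somes : somes.card = 4 := by simp [somes]

/-- All `R`-facts with first coordinate in `P` and second coordinate outside `P`. -/
def GP {n : ℕ} (P : Finset (Fin n)) : Finset (U n) :=
  somes ×ˢ Fintype.piFinset ![P, Pᶜ, univ, univ]

theorem mem_GP {n : ℕ} (P : Finset (Fin n)) (o : Option (Fin 4)) (t : Fin 4 → Fin n) :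
    (o, t) ∈ GP P ↔ (∃ i, o = some i) ∧ t 0 ∈ P ∧ t 1 ∉ P := by
  simp only [GP, mem_product, mem_somes, Fintype.mem_piFinset]
  refine and_congr Iff.rfl ?_
  constructor
  · intro h
    exact ⟨h 0, by simpa using h 1⟩
  · rintro ⟨h0, h1⟩ a
    fin_cases a
    · exact h0
    · simpa using h1
    · simp
    · simp

theorem card_GP {n : ℕ} (P : Finset (Fin n)) :
    (GP P).card = 4 * (P.card * (n - P.card)) * n ^ 2 := by
  rw [GP, card_product, card_somes, Fintype.card_piFinset, Fin.prod_univ_four]
  simp [card_compl]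
  ring

/-- The facts allowed when the `R`-facts live on `A`, with first coordinates in `P`, and the
`S`-facts live outside `A`. -/
def GA {n : ℕ} (P A : Finset (Fin n)) : Finset (U n) :=
  (somes ×ˢ Fintype.piFinset ![P ∩ A, A \ P, A, A]) ∪ ({none} ×ˢ Fintype.piFinset (fun _ => Aᶜ))

theorem card_GA {n : ℕ} (P A : Finset (Fin n)) :
    (GA P A).card ≤ A.card ^ 4 + (n - A.card) ^ 4 := by
  refine (card_union_le _ _).trans ?_
  refine Nat.add_le_add ?_ ?_
  · rw [card_product, card_somes, Fintype.card_piFinset, Fin.prod_univ_four]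
    simp only [Matrix.cons_val_zero, Matrix.cons_val_one, Matrix.cons_val]
    have h : (P ∩ A).card + (A \ P).card = A.card := by
      rw [inter_comm]
      exact card_inter_add_card_sdiff A P
    generalize (P ∩ A).card = x at *
    generalize (A \ P).card = y at *
    rw [← h]
    have : 4 * (x * y) ≤ (x + y) ^ 2 := by
      zify
      nlinarith [sq_nonneg ((x : ℤ) - y)]
    calc 4 * (x * y * (x + y) * (x + y)) = 4 * (x * y) * (x + y) ^ 2 := by ring
      _ ≤ (x + y) ^ 2 * (x + y) ^ 2 := Nat.mul_le_mul_right _ this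
      _ = (x + y) ^ 4 := by ring
  · rw [card_product, card_singleton, Fintype.card_piFinset_const, card_compl]
    simp

/-- Upper bound for the structures with `S` empty. -/
theorem NC_le (n m : ℕ) (hm : ∀ P : Finset (Fin n), 4 * (P.card * (n - P.card)) * n ^ 2 ≤ m) :
    NC n ≤ 2 ^ n * 2 ^ m := by
  classical
  have h1 : (univ.filter (fun E : Finset (U n) => V E ∧ ¬ HS E)) ⊆
      (univ : Finset (Finset (Fin n))).biUnion (fun P => (GP P).powerset) := by
    intro E hE
    simp only [mem_filter, mem_univ, true_and] at hE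
    obtain ⟨hV, hS⟩ := hE
    simp only [mem_biUnion, mem_univ, true_and, mem_powerset]
    refine ⟨univ.filter (fun x => ∃ i t, ((some i, t) : U n) ∈ E ∧ t 0 = x), ?_⟩
    rintro ⟨o, t⟩ ho
    rw [mem_GP]
    cases o with
    | none => exact absurd ⟨t, ho⟩ hS
    | some i =>
      refine ⟨⟨i, rfl⟩, ?_, ?_⟩
      · simp only [mem_filter, mem_univ, true_and]
        exact ⟨i, t, ho, rfl⟩
      · simp only [mem_filter, mem_univ, true_and, not_exists, not_and]
        intro j s hs hst
        exact hV.2 i j t s ho hs hst.symm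
  calc NC n ≤ _ := card_le_card h1
    _ ≤ ∑ P : Finset (Fin n), ((GP P).powerset).card := card_biUnion_le
    _ ≤ ∑ P : Finset (Fin n), 2 ^ m := by
        refine sum_le_sum (fun P _ => ?_)
        rw [card_powerset, card_GP]
        exact Nat.pow_le_pow_right (by norm_num) (hm P)
    _ = 2 ^ n * 2 ^ m := by simp

theorem NC_odd (m : ℕ) :
    NC (2 * m + 1) ≤ 2 ^ (2 * m + 1) * 2 ^ (((2 * m + 1) ^ 2 - 1) * (2 * m + 1) ^ 2) := by
  refine NC_le _ _ ?_
  intro A
  have hA : A.card ≤ 2 * m + 1 := by
    have := Finset.card_le_univ A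
    simpa using this
  refine Nat.mul_le_mul_right _ ?_
  obtain ⟨b, hb⟩ := Nat.exists_eq_add_of_le hA
  generalize A.card = a at *
  have h1 : 2 * m + 1 - a = b := by omega
  rw [h1]
  have h2 : (a : ℤ) - b ≠ 0 := by omega
  have h3 : 1 ≤ ((a : ℤ) - b) ^ 2 := by
    have := Int.one_le_abs h2
    nlinarith [sq_abs ((a : ℤ) - b)]
  have h4 : 4 * (a * b) + 1 ≤ (2 * m + 1) ^ 2 := by
    zify
    have h5 : (2 * (m : ℤ) + 1) = a + b := by exact_mod_cast hb
    rw [h5]
    nlinarith
  omega

/-- Lower bound for the structures with `S` nonempty. -/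
theorem le_NA (n : ℕ) : 2 ^ (n ^ 4) ≤ NA n + 1 := by
  classical
  have h : ((({none} : Finset (Option (Fin 4))) ×ˢ
      (univ : Finset (Fin 4 → Fin n))).powerset).erase ∅ ⊆
      univ.filter (fun E : Finset (U n) => V E ∧ HS E) := by
    intro E hE
    rw [mem_erase, mem_powerset] at hE
    obtain ⟨h0, h1⟩ := hE
    have h2 : ∀ (o : Option (Fin 4)) (t : Fin 4 → Fin n), (o, t) ∈ E → o = none := by
      intro o t ht
      have := h1 ht
      simpa [eq_comm] using this
    simp only [mem_filter, mem_univ, true_and]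
    refine ⟨⟨?_, ?_⟩, ?_⟩
    · intro i s t p q hs _
      exact absurd (h2 _ _ hs) (by simp)
    · intro i j s t hs _
      exact absurd (h2 _ _ hs) (by simp)
    · obtain ⟨⟨o, t⟩, ht⟩ := nonempty_iff_ne_empty.mpr h0
      have := h2 _ _ ht
      subst this
      exact ⟨t, ht⟩
  have h3 := card_le_card h
  rw [card_erase_of_mem (by simp), card_powerset, card_product, card_singleton] at h3
  have h4 : (univ : Finset (Fin 4 → Fin n)).card = n ^ 4 := by simp
  rw [h4, one_mul] at h3
  unfold NA
  omega

/-- Upper bound for the structures with `S` nonempty. -/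
theorem NA_le (n : ℕ) : NA n ≤ 2 ^ (n ^ 4) + 2 ^ (2 * n + ((n - 1) ^ 4 + 1)) := by
  classical
  set X : Finset (Finset (Fin n) × Finset (Fin n)) :=
    univ.filter (fun x => x.2 ≠ ∅ ∧ x.2 ≠ univ) with hX
  have h : univ.filter (fun E : Finset (U n) => V E ∧ HS E) ⊆
      ((({none} : Finset (Option (Fin 4))) ×ˢ (univ : Finset (Fin 4 → Fin n))).powerset) ∪
        X.biUnion (fun x => (GA x.1 x.2).powerset) := by
    intro E hE
    simp only [mem_filter, mem_univ, true_and] at hE
    obtain ⟨hV, u, hu⟩ := hE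
    set A : Finset (Fin n) := univ.filter (fun x => ∃ i t r, ((some i, t) : U n) ∈ E ∧ t r = x)
      with hA
    set P : Finset (Fin n) := univ.filter (fun x => ∃ i t, ((some i, t) : U n) ∈ E ∧ t 0 = x)
      with hP
    have memA : ∀ i t r, ((some i, t) : U n) ∈ E → t r ∈ A := by
      intro i t r ht
      rw [hA]
      simp only [mem_filter, mem_univ, true_and]
      exact ⟨i, t, r, ht, rfl⟩
    have notA : ∀ t r, ((none, t) : U n) ∈ E → t r ∉ A := by
      intro t r ht
      rw [hA]
      simp only [mem_filter, mem_univ, true_and, not_exists, not_and]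
      intro i s p hs hst
      exact hV.1 i s t p r hs ht hst
    rw [mem_union]
    by_cases hA0 : A = ∅
    · left
      rw [mem_powerset]
      rintro ⟨o, t⟩ ht
      cases o with
      | none => simp
      | some i =>
        have := memA i t 0 ht
        rw [hA0] at this
        simp at this
    · right
      rw [mem_biUnion]
      refine ⟨(P, A), ?_, ?_⟩
      · rw [hX]
        simp only [mem_filter, mem_univ, true_and]
        refine ⟨hA0, ?_⟩
        intro h1
        have := notA u 0 hu
        rw [h1] at this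
        simp at this
      · rw [mem_powerset]
        rintro ⟨o, t⟩ ht
        rw [GA, mem_union]
        cases o with
        | none =>
          right
          rw [mem_product]
          refine ⟨by simp, ?_⟩
          rw [Fintype.mem_piFinset]
          intro r
          rw [mem_compl]
          exact notA t r ht
        | some i =>
          left
          rw [mem_product]
          refine ⟨(mem_somes _).mpr ⟨i, rfl⟩, ?_⟩
          rw [Fintype.mem_piFinset]
          intro r
          fin_cases r
          · change t 0 ∈ P ∩ A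
            rw [mem_inter]
            refine ⟨?_, memA i t 0 ht⟩
            rw [hP]
            simp only [mem_filter, mem_univ, true_and]
            exact ⟨i, t, ht, rfl⟩
          · change t 1 ∈ A \ P
            rw [mem_sdiff]
            refine ⟨memA i t 1 ht, ?_⟩
            rw [hP]
            simp only [mem_filter, mem_univ, true_and, not_exists, not_and]
            intro j s hs hst
            exact hV.2 i j t s ht hs hst.symm
          · exact memA i t 2 ht
          · exact memA i t 3 ht
  have hb : (X.biUnion (fun x => (GA x.1 x.2).powerset)).card ≤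
      2 ^ (2 * n + ((n - 1) ^ 4 + 1)) := by
    refine card_biUnion_le.trans ?_
    calc ∑ x ∈ X, ((GA x.1 x.2).powerset).card ≤ ∑ x ∈ X, 2 ^ ((n - 1) ^ 4 + 1) := by
          refine sum_le_sum (fun x hx => ?_)
          rw [card_powerset]
          refine Nat.pow_le_pow_right (by norm_num) ((card_GA _ _).trans ?_)
          rw [hX] at hx
          simp only [mem_filter, mem_univ, true_and] at hx
          obtain ⟨h0, h1⟩ := hx
          have h2 : 0 < x.2.card := card_pos.mpr (nonempty_iff_ne_empty.mpr h0)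
          have h3 : x.2.card < n := by
            have := card_lt_univ_of_notMem (s := x.2) (x := ?_) ?_
            · simpa using this
            · exact (Classical.not_forall.mp (fun h => h1 (eq_univ_iff_forall.mpr h))).choose
            · exact (Classical.not_forall.mp (fun h => h1 (eq_univ_iff_forall.mpr h))).choose_spec
          obtain ⟨a, ha⟩ := Nat.exists_eq_add_of_lt h2
          obtain ⟨b, hb⟩ := Nat.exists_eq_add_of_lt h3
          have e1 : x.2.card = a + 1 := by omega
          have e2 : n - x.2.card = b + 1 := by omega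
          have e3 : n - 1 = a + b + 1 := by omega
          rw [e2, e3, e1]
          have : (a + b + 1) ^ 4 + 1 = ((a + 1) ^ 4 + (b + 1) ^ 4) +
              (4 * a ^ 3 * b + 6 * a ^ 2 * b ^ 2 + 4 * a * b ^ 3 + 12 * a ^ 2 * b +
                12 * a * b ^ 2 + 12 * a * b) := by ring
          omega
      _ = X.card * 2 ^ ((n - 1) ^ 4 + 1) := by rw [sum_const, smul_eq_mul]
      _ ≤ 2 ^ (2 * n) * 2 ^ ((n - 1) ^ 4 + 1) := by
          refine Nat.mul_le_mul_right _ ?_
          refine (card_le_univ _).trans (le_of_eq ?_)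
          rw [Fintype.card_prod, Fintype.card_finset, Fintype.card_fin]
          ring
      _ = 2 ^ (2 * n + ((n - 1) ^ 4 + 1)) := (pow_add _ _ _).symm
  refine (card_le_card h).trans ((card_union_le _ _).trans (Nat.add_le_add (le_of_eq ?_) hb))
  rw [card_powerset, card_product, card_singleton]
  simp

/-- Lower bound for the structures with `S` empty on an even number of points. -/
theorem le_NC (m : ℕ) (hm : 0 < m) :
    Nat.centralBinom m * 2 ^ ((2 * m) ^ 4 - m) ≤ NC (2 * m) := by
  classical
  have _hne : NeZero (2 * m) := ⟨by omega⟩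
  have hy : ∀ P : Finset (Fin (2 * m)), P ∈ powersetCard m univ → ∃ y, y ∉ P := by
    intro P hP
    rw [mem_powersetCard] at hP
    by_contra hcon
    push Not at hcon
    have h1 := eq_univ_iff_forall.mpr hcon
    have h2 := hP.2
    rw [h1, card_univ, Fintype.card_fin] at h2
    omega
  choose! y hy using hy
  set K : Finset (Fin (2 * m)) → Finset (U (2 * m)) :=
    fun P => P.image (fun x => ((some 0, ![x, y P, y P, y P]) : U (2 * m))) with hK
  have hKG : ∀ P, P ∈ powersetCard m univ → K P ⊆ GP P := by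
    intro P hP
    rw [hK]
    intro z hz
    simp only [mem_image] at hz
    obtain ⟨x, hx, rfl⟩ := hz
    rw [mem_GP]
    exact ⟨⟨0, rfl⟩, hx, hy P hP⟩
  have hsub : (powersetCard m (univ : Finset (Fin (2 * m)))).biUnion
      (fun P => Icc (K P) (GP P)) ⊆
      univ.filter (fun E : Finset (U (2 * m)) => V E ∧ ¬ HS E) := by
    intro E hE
    rw [mem_biUnion] at hE
    obtain ⟨P, hP, hE⟩ := hE
    rw [mem_Icc] at hE
    have hG : ∀ o t, ((o, t) : U (2 * m)) ∈ E → (∃ i, o = some i) ∧ t 0 ∈ P ∧ t 1 ∉ P :=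
      fun o t ht => (mem_GP P o t).mp (hE.2 ht)
    simp only [mem_filter, mem_univ, true_and]
    refine ⟨⟨?_, ?_⟩, ?_⟩
    · intro i s t p q _ ht
      obtain ⟨⟨j, hj⟩, _⟩ := hG _ _ ht
      exact absurd hj (by simp)
    · intro i j s t hs ht hst
      have h1 := (hG _ _ hs).2.2
      have h2 := (hG _ _ ht).2.1
      rw [hst] at h1
      exact h1 h2
    · rintro ⟨t, ht⟩
      obtain ⟨⟨j, hj⟩, _⟩ := hG _ _ ht
      exact absurd hj (by simp)
  have hdis : ∀ P ∈ powersetCard m (univ : Finset (Fin (2 * m))),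
      ∀ Q ∈ powersetCard m (univ : Finset (Fin (2 * m))), P ≠ Q →
        Disjoint (Icc (K P) (GP P)) (Icc (K Q) (GP Q)) := by
    intro P hP Q hQ hne
    rw [disjoint_left]
    intro E hE hE'
    rw [mem_Icc] at hE hE'
    apply hne
    have key : ∀ P Q : Finset (Fin (2 * m)), K P ⊆ E → E ⊆ GP Q → P ⊆ Q := by
      intro P Q h1 h2 x hx
      have h3 : ((some 0, ![x, y P, y P, y P]) : U (2 * m)) ∈ K P := by
        rw [hK]
        exact mem_image_of_mem _ hx
      have h4 := (mem_GP _ _ _).mp (h2 (h1 h3))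
      exact h4.2.1
    exact Subset.antisymm (key P Q hE.1 hE'.2) (key Q P hE'.1 hE.2)
  calc Nat.centralBinom m * 2 ^ ((2 * m) ^ 4 - m)
      = ∑ P ∈ powersetCard m (univ : Finset (Fin (2 * m))), 2 ^ ((2 * m) ^ 4 - m) := by
        rw [sum_const, smul_eq_mul, card_powersetCard, card_univ, Fintype.card_fin,
          Nat.centralBinom]
    _ ≤ ∑ P ∈ powersetCard m (univ : Finset (Fin (2 * m))), (Icc (K P) (GP P)).card := by
        refine sum_le_sum (fun P hP => ?_)
        rw [card_Icc_finset (hKG P hP)]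
        refine Nat.pow_le_pow_right (by norm_num) ?_
        have h1 : (K P).card ≤ m := by
          rw [hK]
          refine card_image_le.trans (le_of_eq ?_)
          exact (mem_powersetCard.mp hP).2
        have h2 : (GP P).card = (2 * m) ^ 4 := by
          rw [card_GP, (mem_powersetCard.mp hP).2]
          have : 2 * m - m = m := by omega
          rw [this]
          ring
        omega
    _ = ((powersetCard m (univ : Finset (Fin (2 * m)))).biUnion
          (fun P => Icc (K P) (GP P))).card := (card_biUnion hdis).symm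
    _ ≤ NC (2 * m) := card_le_card hsub

/-- On an even number of points the structures with `S` nonempty are rare. -/
theorem even_nat (m : ℕ) (hm : 0 < m) : NA (2 * m) * 2 ^ m ≤ 4 * m * NC (2 * m) := by
  have h1 : NA (2 * m) ≤ 2 * 2 ^ ((2 * m) ^ 4) := by
    refine (NA_le _).trans ?_
    rw [two_mul (2 ^ ((2 * m) ^ 4))]
    refine Nat.add_le_add_left (Nat.pow_le_pow_right (by norm_num) ?_) _
    obtain ⟨k, hk⟩ := Nat.exists_eq_add_of_le (show 2 ≤ 2 * m by omega)
    rw [hk]
    have : 2 + k - 1 = k + 1 := by omega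
    rw [this]
    nlinarith [Nat.zero_le (k ^ 3), Nat.zero_le (k ^ 2), Nat.zero_le k]
  have h2 := le_NC m hm
  have h3 := Nat.four_pow_le_two_mul_self_mul_centralBinom m hm
  have h4 : m ≤ (2 * m) ^ 4 := by
    calc m ≤ 2 * m := by omega
      _ = (2 * m) ^ 1 := (pow_one _).symm
      _ ≤ (2 * m) ^ 4 := Nat.pow_le_pow_right (by omega) (by norm_num)
  calc NA (2 * m) * 2 ^ m ≤ 2 * 2 ^ ((2 * m) ^ 4) * 2 ^ m := Nat.mul_le_mul_right _ h1
    _ = 2 * (2 ^ ((2 * m) ^ 4 - m) * 2 ^ m) * 2 ^ m := by
        rw [← pow_add, Nat.sub_add_cancel h4]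
    _ = 2 * (4 ^ m * 2 ^ ((2 * m) ^ 4 - m)) := by
        have : (4 : ℕ) ^ m = 2 ^ m * 2 ^ m := by
          rw [← mul_pow]
          norm_num
        rw [this]
        ring
    _ ≤ 2 * (2 * m * Nat.centralBinom m * 2 ^ ((2 * m) ^ 4 - m)) :=
        Nat.mul_le_mul_left _ (Nat.mul_le_mul_right _ h3)
    _ = 4 * m * (Nat.centralBinom m * 2 ^ ((2 * m) ^ 4 - m)) := by ring
    _ ≤ 4 * m * NC (2 * m) := Nat.mul_le_mul_left _ h2

/-- On an odd number of points the structures with `S` empty are rare. -/
theorem odd_nat (m : ℕ) (hm : 0 < m) : NC (2 * m + 1) * 2 ^ m ≤ 2 * NA (2 * m + 1) := by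
  have h1 := NC_odd m
  have h2 := le_NA (2 * m + 1)
  set n := 2 * m + 1 with hn
  have h3 : (n ^ 2 - 1) * n ^ 2 + n ^ 2 = n ^ 4 := by
    have : 1 ≤ n ^ 2 := Nat.one_le_pow _ _ (by omega)
    obtain ⟨q, hq⟩ := Nat.exists_eq_add_of_le this
    have h4 : n ^ 4 = n ^ 2 * n ^ 2 := by ring
    rw [h4, hq]
    have : 1 + q - 1 = q := by omega
    rw [this]
    ring
  have h5 : n + m ≤ n ^ 2 := by
    rw [hn]
    nlinarith
  have h6 : n + (n ^ 2 - 1) * n ^ 2 + m ≤ n ^ 4 := by omega
  have h7 : 1 ≤ n ^ 4 := Nat.one_le_pow _ _ (by omega)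
  have h8 : 2 ≤ 2 ^ (n ^ 4) := by
    calc 2 = 2 ^ 1 := (pow_one 2).symm
      _ ≤ 2 ^ (n ^ 4) := Nat.pow_le_pow_right (by norm_num) h7
  calc NC n * 2 ^ m ≤ 2 ^ n * 2 ^ ((n ^ 2 - 1) * n ^ 2) * 2 ^ m := Nat.mul_le_mul_right _ h1
    _ = 2 ^ (n + (n ^ 2 - 1) * n ^ 2 + m) := by
        rw [pow_add _ (n + (n ^ 2 - 1) * n ^ 2) m, pow_add _ n]
    _ ≤ 2 ^ (n ^ 4) := Nat.pow_le_pow_right (by norm_num) h6
    _ ≤ 2 * NA n := by omega

/-- The proportion of the structures with `S` nonempty. -/
noncomputable def ratio (n : ℕ) : ℝ := (NA n : ℝ) / ((NA n + NC n : ℕ) : ℝ)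

theorem ratio_even : Filter.Tendsto (fun m : ℕ => ratio (2 * m)) Filter.atTop (nhds 0) := by
  have hlim : Filter.Tendsto (fun m : ℕ => 4 * ((m : ℝ) * (1 / 2) ^ m)) Filter.atTop (nhds 0) := by
    have := (tendsto_self_mul_const_pow_of_lt_one (r := (1 / 2 : ℝ)) (by norm_num)
      (by norm_num)).const_mul 4
    simpa using this
  refine tendsto_of_tendsto_of_tendsto_of_le_of_le' tendsto_const_nhds hlim ?_ ?_
  · refine Filter.Eventually.of_forall (fun m => ?_)
    unfold ratio
    positivity
  · filter_upwards [Filter.eventually_gt_atTop 0] with m hm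
    have h := even_nat m hm
    have hC : 0 < NC (2 * m) := by
      have h2 := le_NC m hm
      have h3 := Nat.centralBinom_pos m
      have : 0 < Nat.centralBinom m * 2 ^ ((2 * m) ^ 4 - m) := by positivity
      omega
    have hC' : (0 : ℝ) < NC (2 * m) := by exact_mod_cast hC
    have hA' : (0 : ℝ) ≤ NA (2 * m) := by positivity
    have h' : (NA (2 * m) : ℝ) * 2 ^ m ≤ 4 * m * NC (2 * m) := by exact_mod_cast h
    have h2 : (0 : ℝ) < 2 ^ m := by positivity
    unfold ratio
    rw [div_le_iff₀ (by positivity)]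
    have e : (1 / 2 : ℝ) ^ m * 2 ^ m = 1 := by
      rw [← mul_pow]
      norm_num
    have h5 : (NA (2 * m) : ℝ) ≤ 4 * (m * (1 / 2) ^ m) * NC (2 * m) := by
      have : (NA (2 * m) : ℝ) = NA (2 * m) * 2 ^ m * (1 / 2) ^ m := by
        rw [mul_assoc, mul_comm ((2 : ℝ) ^ m), e, mul_one]
      rw [this]
      calc (NA (2 * m) : ℝ) * 2 ^ m * (1 / 2) ^ m ≤ (4 * m * NC (2 * m)) * (1 / 2) ^ m :=
            mul_le_mul_of_nonneg_right h' (by positivity)
        _ = _ := by ring
    refine h5.trans ?_
    refine mul_le_mul_of_nonneg_left ?_ (by positivity)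
    push_cast
    linarith

theorem ratio_odd : Filter.Tendsto (fun m : ℕ => ratio (2 * m + 1)) Filter.atTop (nhds 1) := by
  have hlim : Filter.Tendsto (fun m : ℕ => 1 - 2 * (1 / 2 : ℝ) ^ m) Filter.atTop (nhds 1) := by
    have := ((tendsto_pow_atTop_nhds_zero_of_lt_one (r := (1 / 2 : ℝ)) (by norm_num)
      (by norm_num)).const_mul 2).const_sub 1
    simpa using this
  refine tendsto_of_tendsto_of_tendsto_of_le_of_le' hlim tendsto_const_nhds ?_ ?_
  · filter_upwards [Filter.eventually_gt_atTop 0] with m hm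
    have h := odd_nat m hm
    have hA : 0 < NA (2 * m + 1) := by
      have h2 := le_NA (2 * m + 1)
      have h7 : 1 ≤ (2 * m + 1) ^ 4 := Nat.one_le_pow _ _ (by omega)
      have h8 : 2 ≤ 2 ^ ((2 * m + 1) ^ 4) := by
        calc 2 = 2 ^ 1 := (pow_one 2).symm
          _ ≤ 2 ^ ((2 * m + 1) ^ 4) := Nat.pow_le_pow_right (by norm_num) h7
      omega
    have hA' : (0 : ℝ) < NA (2 * m + 1) := by exact_mod_cast hA
    have h' : (NC (2 * m + 1) : ℝ) * 2 ^ m ≤ 2 * NA (2 * m + 1) := by exact_mod_cast h
    unfold ratio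
    rw [le_div_iff₀ (by positivity)]
    have e : (1 / 2 : ℝ) ^ m * 2 ^ m = 1 := by
      rw [← mul_pow]
      norm_num
    have h5 : (NC (2 * m + 1) : ℝ) ≤ 2 * (1 / 2) ^ m * NA (2 * m + 1) := by
      have : (NC (2 * m + 1) : ℝ) = NC (2 * m + 1) * 2 ^ m * (1 / 2) ^ m := by
        rw [mul_assoc, mul_comm ((2 : ℝ) ^ m), e, mul_one]
      rw [this]
      calc (NC (2 * m + 1) : ℝ) * 2 ^ m * (1 / 2) ^ m ≤ (2 * NA (2 * m + 1)) * (1 / 2) ^ m :=
            mul_le_mul_of_nonneg_right h' (by positivity)
        _ = _ := by ring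
    push_cast
    have h6 : (0 : ℝ) ≤ 2 * (1 / 2) ^ m * NC (2 * m + 1) := by positivity
    nlinarith
  · refine Filter.Eventually.of_forall (fun m => ?_)
    unfold ratio
    refine div_le_one_of_le₀ ?_ (by positivity)
    push_cast
    have : (0 : ℝ) ≤ NC (2 * m + 1) := by positivity
    linarith

end Pool.Agent.Helper29.OWN.E6
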